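import Mathlib

namespace Pool.Agent.Results.MP_e25d14_pr.Drift

open Finset

/-- `P_x(τ(y) = t)`: the total weight of the paths `ω 0 = x, ω 1, …, ω t = y` that avoid `y`
before time `t`, a path weighing the product of its transition probabilities. -/
noncomputable def hitProb {n : ℕ} (P : Fin n → Fin n → ℝ) (x y : Fin n) (t : ℕ) : ℝ :=
  ∑ ω : Fin (t + 1) → Fin n,
    if ω 0 = x ∧ ω (Fin.last t) = y ∧ ∀ i : Fin t, ω i.castSucc ≠ y
    then ∏ i : Fin t, P (ω i.castSucc) (ω i.succ) else 0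

/-- `P` is an irreducible stochastic matrix, reversible with respect to the probability
vector `w` (which is then its unique stationary distribution). -/
def RevChain {n : ℕ} (P : Fin n → Fin n → ℝ) (w : Fin n → ℝ) : Prop :=
  (∀ u v, 0 ≤ P u v) ∧ (∀ u, ∑ v, P u v = 1) ∧
  (∀ u v, Relation.ReflTransGen (fun a b => 0 < P a b) u v) ∧
  (∀ u, 0 < w u) ∧ ∑ u, w u = 1 ∧ (∀ v, ∑ u, w u * P u v = w v) ∧
  ∀ u v, w u * P u v = w v * P v u

noncomputable def Pm (N : ℕ) (i j : Fin (N + 1)) : ℝ :=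
  (if j.val = min (i.val + 1) N then (N : ℝ) / (N + 1) else 0) +
    (if j.val = i.val - 1 then 1 / ((N : ℝ) + 1) else 0)

noncomputable def Z (N : ℕ) : ℝ := ∑ i : Fin (N + 1), (N : ℝ) ^ i.val

noncomputable def wt (N : ℕ) (i : Fin (N + 1)) : ℝ := (N : ℝ) ^ i.val / Z N

lemma Z_pos (N : ℕ) (hN : 1 ≤ N) : 0 < Z N := by
  unfold Z
  apply Finset.sum_pos
  · intro i _
    have : (0 : ℝ) < N := by exact_mod_cast hN
    positivity
  · exact Finset.univ_nonempty

lemma Pm_nonneg (N : ℕ) (i j : Fin (N + 1)) : 0 ≤ Pm N i j := by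
  unfold Pm
  apply add_nonneg <;> split_ifs <;> positivity

lemma sum_ite_val (N : ℕ) (a : ℕ) (ha : a < N + 1) (c : ℝ) :
    ∑ j : Fin (N + 1), (if j.val = a then c else 0) = c := by
  rw [Finset.sum_eq_single (⟨a, ha⟩ : Fin (N + 1))]
  · simp
  · intro b _ hb
    rw [if_neg]
    intro h
    exact hb (Fin.ext h)
  · simp

lemma Pm_sum (N : ℕ) (i : Fin (N + 1)) : ∑ j, Pm N i j = 1 := by
  unfold Pm
  rw [Finset.sum_add_distrib, sum_ite_val _ _ (by omega), sum_ite_val _ _ (by omega)]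
  field_simp

lemma Pm_rev (N : ℕ) (_hN : 1 ≤ N) (u v : Fin (N + 1)) : wt N u * Pm N u v = wt N v * Pm N v u := by
  have key : ∀ u v : Fin (N + 1), u.val < v.val → wt N u * Pm N u v = wt N v * Pm N v u := by
    intro u v h
    have hv := v.isLt
    unfold Pm wt
    by_cases h1 : v.val = u.val + 1
    · rw [if_pos (by omega), if_neg (by omega), if_neg (by omega), if_pos (by omega), h1, pow_succ]
      ring
    · rw [if_neg (by omega), if_neg (by omega), if_neg (by omega), if_neg (by omega)]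
      ring
  rcases lt_trichotomy u.val v.val with h | h | h
  · exact key u v h
  · have : u = v := Fin.ext h
    subst this; rfl
  · exact (key v u h).symm

lemma Pm_up (N : ℕ) (u v : Fin (N + 1)) (h : v.val = u.val + 1) :
    (N : ℝ) / (N + 1) ≤ Pm N u v := by
  have hv := v.isLt
  unfold Pm
  rw [if_pos (by omega), if_neg (by omega)]
  simp

lemma Pm_down (N : ℕ) (u v : Fin (N + 1)) (h : u.val = v.val + 1) : 0 < Pm N u v := by
  have hv := u.isLt
  unfold Pm
  rw [if_neg (by omega), if_pos (by omega)]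
  positivity

lemma Pm_irr (N : ℕ) (hN : 1 ≤ N) (u v : Fin (N + 1)) :
    Relation.ReflTransGen (fun a b => 0 < Pm N a b) u v := by
  have hNp : (0 : ℝ) < N := by exact_mod_cast hN
  have up : ∀ d : ℕ, ∀ u v : Fin (N + 1), v.val = u.val + d →
      Relation.ReflTransGen (fun a b => 0 < Pm N a b) u v := by
    intro d
    induction d with
    | zero => intro u v h; have : u = v := Fin.ext (by omega); subst this; rfl
    | succ d ih =>
      intro u v h
      have hv := v.isLt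
      refine Relation.ReflTransGen.head (b := ⟨u.val + 1, by omega⟩) ?_ (ih _ _ (by simp; omega))
      exact lt_of_lt_of_le (by positivity) (Pm_up N u _ rfl)
  have down : ∀ d : ℕ, ∀ u v : Fin (N + 1), u.val = v.val + d →
      Relation.ReflTransGen (fun a b => 0 < Pm N a b) u v := by
    intro d
    induction d with
    | zero => intro u v h; have : u = v := Fin.ext (by omega); subst this; rfl
    | succ d ih =>
      intro u v h
      have hv := u.isLt
      refine Relation.ReflTransGen.head (b := ⟨v.val + d, by omega⟩) ?_ (ih _ _ (by simp))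
      exact Pm_down N u _ (by simp; omega)
  rcases le_total u.val v.val with h | h
  · exact up (v.val - u.val) u v (by omega)
  · exact down (u.val - v.val) u v (by omega)

lemma rev (N : ℕ) (hN : 1 ≤ N) : RevChain (Pm N) (wt N) := by
  have hNp : (0 : ℝ) < N := by exact_mod_cast hN
  have hZ := Z_pos N hN
  refine ⟨Pm_nonneg N, Pm_sum N, Pm_irr N hN, fun u => by unfold wt; positivity, ?_, ?_,
    Pm_rev N hN⟩
  · unfold wt
    rw [← Finset.sum_div]
    exact div_self hZ.ne'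
  · intro v
    simp_rw [Pm_rev N hN _ v]
    rw [← Finset.mul_sum, Pm_sum, mul_one]

lemma hit_ge (N : ℕ) (hN : 1 ≤ N) : 1 / 3 ≤ hitProb (Pm N) 0 (Fin.last N) N := by
  have hNp : (0 : ℝ) < N := by exact_mod_cast hN
  unfold hitProb
  refine le_trans ?_ (Finset.single_le_sum (f := fun ω : Fin (N + 1) → Fin (N + 1) =>
    if ω 0 = 0 ∧ ω (Fin.last N) = Fin.last N ∧ ∀ i : Fin N, ω i.castSucc ≠ Fin.last N
    then ∏ i : Fin N, Pm N (ω i.castSucc) (ω i.succ) else 0) ?_ (Finset.mem_univ id))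
  · rw [if_pos]
    · have h1 : ((N : ℝ) / (N + 1)) ^ N ≤ ∏ i : Fin N, Pm N (id i.castSucc) (id i.succ) := by
        calc ((N : ℝ) / (N + 1)) ^ N = ∏ _i : Fin N, ((N : ℝ) / (N + 1)) := by
              rw [Finset.prod_const, Finset.card_univ, Fintype.card_fin]
          _ ≤ _ := by
            apply Finset.prod_le_prod
            · intro i _; positivity
            · intro i _
              exact Pm_up N _ _ (by simp)
      refine le_trans ?_ h1
      have h2 : (1 + 1 / (N : ℝ)) ^ N ≤ 3 := by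
        have h3 : 1 + 1 / (N : ℝ) ≤ Real.exp (1 / N) := by
          have := Real.add_one_le_exp (1 / (N : ℝ)); linarith
        calc (1 + 1 / (N : ℝ)) ^ N ≤ (Real.exp (1 / N)) ^ N :=
              pow_le_pow_left₀ (by positivity) h3 N
          _ = Real.exp 1 := by rw [← Real.exp_nat_mul]; congr 1; field_simp
          _ ≤ 3 := by have := Real.exp_one_lt_d9; linarith
      have h4 : (N : ℝ) / (N + 1) = (1 + 1 / (N : ℝ))⁻¹ := by field_simp
      rw [h4, inv_pow, one_div]
      exact inv_anti₀ (by positivity) h2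
    · refine ⟨rfl, rfl, fun i => ?_⟩
      exact (Fin.castSucc_lt_last i).ne
  · intro ω _
    split_ifs
    · exact Finset.prod_nonneg fun i _ => Pm_nonneg N _ _
    · exact le_rfl

lemma logZ (N : ℕ) (hN : 1 ≤ N) : Real.log (1 / wt N 0) ≤ (N + 1) * Real.log (N + 1) := by
  have hNp : (1 : ℝ) ≤ N := by exact_mod_cast hN
  have hZ := Z_pos N hN
  have h1 : 1 / wt N 0 = Z N := by unfold wt; simp
  rw [h1]
  have h2 : Z N ≤ ((N : ℝ) + 1) ^ (N + 1) := by
    unfold Z
    calc ∑ i : Fin (N + 1), (N : ℝ) ^ i.val ≤ ∑ _i : Fin (N + 1), ((N : ℝ) + 1) ^ N := by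
          apply Finset.sum_le_sum
          intro i _
          calc (N : ℝ) ^ i.val ≤ ((N : ℝ) + 1) ^ i.val :=
                pow_le_pow_left₀ (by positivity) (by linarith) _
            _ ≤ ((N : ℝ) + 1) ^ N := pow_le_pow_right₀ (by linarith) (by have := i.isLt; omega)
      _ = ((N : ℝ) + 1) ^ (N + 1) := by simp [pow_succ]; ring
  calc Real.log (Z N) ≤ Real.log (((N : ℝ) + 1) ^ (N + 1)) := Real.log_le_log hZ h2
    _ = _ := by rw [Real.log_pow]; push_cast; ring

theorem result : ∀ C : ℝ, 0 < C → ∃ (n : ℕ) (P : Fin n → Fin n → ℝ) (w : Fin n → ℝ),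
    RevChain P w ∧ ∃ (x y : Fin n) (t : ℕ), 1 ≤ t ∧
      C / t * Real.sqrt (max 1 (Real.log (1 / w x))) < hitProb P x y t := by
  intro C hC
  obtain ⟨k, hk⟩ := exists_nat_gt (4 * C + 1)
  have hk1 : (1 : ℝ) < k := by linarith
  have hk1' : 1 ≤ k := by exact_mod_cast hk1.le
  obtain ⟨N, hN⟩ : ∃ N : ℕ, N + 1 = 4 * k ^ 4 := ⟨4 * k ^ 4 - 1, by
    have : 1 ≤ k ^ 4 := Nat.one_le_pow _ _ hk1'
    omega⟩
  have hNr : (N : ℝ) + 1 = 4 * (k : ℝ) ^ 4 := by exact_mod_cast hN
  have hk4 : (1 : ℝ) ≤ (k : ℝ) ^ 4 := one_le_pow₀ hk1.le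
  have hN1 : 1 ≤ N := by
    have : 1 ≤ k ^ 4 := Nat.one_le_pow _ _ hk1'
    omega
  refine ⟨N + 1, Pm N, wt N, rev N hN1, 0, Fin.last N, N, hN1, lt_of_lt_of_le ?_ (hit_ge N hN1)⟩
  have hlog : Real.log ((N : ℝ) + 1) ≤ 4 * (k : ℝ) ^ 2 := by
    have h1 : (N : ℝ) + 1 = (2 * (k : ℝ) ^ 2) ^ 2 := by rw [hNr]; ring
    rw [h1, Real.log_pow]
    have := Real.log_le_sub_one_of_pos (show (0 : ℝ) < 2 * (k : ℝ) ^ 2 by positivity)
    push_cast
    linarith
  have hsq : Real.sqrt (max 1 (Real.log (1 / wt N 0))) ≤ 4 * (k : ℝ) ^ 3 := by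
    apply Real.sqrt_le_iff.mpr
    refine ⟨by positivity, max_le ?_ ?_⟩
    · have : (1 : ℝ) ≤ (k : ℝ) ^ 3 := one_le_pow₀ hk1.le
      nlinarith
    · calc Real.log (1 / wt N 0) ≤ (N + 1) * Real.log (N + 1) := logZ N hN1
        _ ≤ (N + 1) * (4 * (k : ℝ) ^ 2) := by gcongr
        _ = (4 * (k : ℝ) ^ 3) ^ 2 := by rw [hNr]; ring
  have hNp : (0 : ℝ) < N := by exact_mod_cast hN1
  calc C / N * Real.sqrt (max 1 (Real.log (1 / wt N 0))) ≤ C / N * (4 * (k : ℝ) ^ 3) := by
        gcongr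
    _ < 1 / 3 := by
      rw [div_mul_eq_mul_div, div_lt_div_iff₀ hNp (by norm_num)]
      have h3 : (0 : ℝ) < (k : ℝ) ^ 3 := by positivity
      have : (k : ℝ) ^ 4 = k * (k : ℝ) ^ 3 := by ring
      nlinarith

end Pool.Agent.Results.MP_e25d14_pr.Drift
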